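import Mathlib
import Pool.Agent.H472Z.CubDefs
import Pool.Agent.H472Z.CubMain

set_option autoImplicit false

namespace Pool.Agent.Results.MP_b1ca72_ag.ThreeCubics

open Pool.Agent.H472Z.Cub

/-- Negated form of Q1.  There are `r, d, t, m` satisfying the inequality such that outside any
countable union of proper Zariski-closed subsets of `(P^2)^r` there is a configuration of distinct
points `p i` and a squarefree form `F` of degree `d` with multiplicity exactly `m i` at `p i`
(so the strict transform of `F = 0` is a reduced member of the linear system on the blow-up) and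
with multiplicity exactly `t` at a point `x` different from all `p i`.
The witness is `r = 11`, `d = 9`, `t = 3`, `m = (3^8, 1^3)`. -/
theorem result :
    ∃ (r d t : ℕ) (m : Fin r → ℕ), 1 ≤ d ∧ 1 ≤ t ∧
      (((d + 2).choose 2 : ℤ) - ∑ i, ((m i + 1).choose 2 : ℤ) ≤
        max (((t + 1).choose 2 : ℤ) - 2) 0) ∧
      ∀ Z : ℕ → Set (Fin r → P2), (∀ k, IsZariskiClosed (Z k) ∧ Z k ≠ Set.univ) →
        ∃ p : Fin r → P2, (∀ k, p ∉ Z k) ∧ Function.Injective p ∧
          ∃ F : MvPolynomial (Fin 3) ℂ, F.IsHomogeneous d ∧ F ≠ 0 ∧ Squarefree F ∧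
            (∀ i, HasMult F (p i) (m i)) ∧
            ∃ x : P2, (∀ i, x ≠ p i) ∧ HasMult F x t :=
  ⟨11, 9, 3, mm, by norm_num, by norm_num, by decide, main⟩

end Pool.Agent.Results.MP_b1ca72_ag.ThreeCubics
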